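import Pool.Agent.V7H91.SH.S3
import Pool.Agent.Y699.Pos

/-!
# The 2-primary part of the Tate-Shafarevich group of `y² = x³ - D² x` over `ℚ(i)` and over all number
# fields contained in the infinite extensions `ℚ(i)(√l₁, √l₂, …)`

`K = ℚ(i)` and `E_D : y² = x³ - D² x`, where `D` is a primary squarefree Gaussian integer of norm `5`
modulo `8` such that for every factorization `D = d d'` into primary factors not equal to `1` there is
a prime factor of `d` modulo which `d'` is not a square, or a prime factor of `d'` modulo which `d` is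
not a square.  A positive proportion of the squarefree Gaussian integers is in this class.  A prime `l`
congruent to `1` modulo `4` which does not divide `D` is attached to `D` if exactly one prime factor of
`D` is not a square modulo `l`, and a finite or infinite set `S` of such primes is admissible if its
elements are squares modulo each other.

Theorem.  `Ш(E_D / K)[2^∞] = 0`, and for every number field `M` contained in `F = K(√l : l ∈ S)` the
group `Ш(E_D / M)[2^∞]` is finite and killed by `[M : K]`, and `E_D(M)` and `E_D(F)` have exactly four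
elements.  The primes which can be added to a finite admissible set have the density
`m / 2 ^ (m + #S)` among the primes congruent to `1` modulo `4`, `m` the number of prime factors of `D`,
and every finite admissible set is contained in an infinite one.

The proof.  (1) Over `K` the curve `E_D` and the curve `y² = x³ + 4 D² x` isogenous to it by the isogeny
with kernel `(0, 0)` are isomorphic by `x ↦ (1 + i)² x`.  The local condition of the descent by this
isogeny at a prime `π` which divides `D` is that the class is `1` or `D` (in the case of a point with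
`v(x) = v(D) = 1`, `x = D t`, the valuation of `t² - 1` is odd, and `t` is a square or minus a square);
at all other primes, `1 + i` included, only the parity of the valuation is used.  So the Selmer group of
this isogeny is a subgroup of the units and the divisors of `D` described by the Laplacian of the graph
of the primes dividing `D`, with an edge for each pair of primes which are not squares modulo each
other; it is `{1, D}`, by the condition on `D`.  The counting of the locally trivial cocycles with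
values in `E_D[2]` (library of helper682) gives `Ш(E_D / K)[2] = 0`.  (2) The graph of
`D ∏_{l ∈ T} l` is that of `D` with the leaves `l ∈ T`, so that `D ∏ T` is in the class for all finite
`T ⊆ S`.  (3) Let `H` be the group of the `T` with `√∏ T ∈ M`, `#H = [M : K]` by Kummer theory.  Over `M`
the curves `E_{D ∏ T}`, `T ∈ H`, are isomorphic, and for an automorphism `g ≠ 1` of `M` over `K` the sum
over the `T` of the conjugates of `g` vanishes, as `T ↦ g(√∏ T) / √∏ T` is a nontrivial character of
`H`.  So the corestrictions to the twists, applied to a locally trivial cocycle over `M`, add up to its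
multiple by `[M : K]` (corestriction: helper715 and helper682).  (4) `Ш(E_D / M)[2]` is finite by the
theorem on units and class numbers.
-/

set_option autoImplicit false

namespace Pool.Agent.Results.MP_78d38b_nt.GaussianTowersShaH91

open NumberField IsDedekindDomain Filter Topology
open Pool.Agent.TH841.NF.D (Sha)
open scoped Classical

/-- The `2`-primary part of the Tate-Shafarevich group of `E` over the number field `M` is finite and
killed by `N`. -/
def TwoPart {M : Type} [Field M] [NumberField M] (E : WeierstrassCurve M) (N : ℕ) : Prop :=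
  {x : Sha E | ∃ n : ℕ, 2 ^ n • x = 0}.Finite ∧ ∀ x : Sha E, (∃ n : ℕ, 2 ^ n • x = 0) → N • x = 0

/-- `D ≡ 1 mod 2 + 2i`. -/
def Primary (D : GaussianInt) : Prop := (⟨2, 2⟩ : GaussianInt) ∣ D - 1

/-- `x` is a square modulo `π`. -/
def IsSquareMod (x π : GaussianInt) : Prop := ∃ y : GaussianInt, π ∣ x - y ^ 2

/-- The class of the `D`: `D` is primary and squarefree, its norm is `5` modulo `8`, and there is no
factorization `D = d d'` into primary factors not equal to `1` such that `d'` is a square modulo all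
primary primes dividing `d`, and `d` is a square modulo all primary primes dividing `d'`. -/
def InClass (D : GaussianInt) : Prop :=
  Primary D ∧ Squarefree D ∧ D.norm % 8 = 5 ∧
    ∀ d d' : GaussianInt, Primary d → Primary d' → D = d * d' →
      (∀ π : GaussianInt, Prime π → Primary π → π ∣ d → IsSquareMod d' π) →
      (∀ π : GaussianInt, Prime π → Primary π → π ∣ d' → IsSquareMod d π) → d = 1 ∨ d' = 1

/-- `l` is a prime congruent to `1` modulo `4` which does not divide `D`, and exactly one of the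
primary primes dividing `D` is not a square modulo `l`. -/
def Attached (D l : GaussianInt) : Prop :=
  Prime l ∧ (4 : GaussianInt) ∣ l - 1 ∧ ¬ l ∣ D ∧
    ∃! π : GaussianInt, Prime π ∧ Primary π ∧ π ∣ D ∧ ¬ IsSquareMod π l

/-- All `l ∈ S` are attached to `D`, and the elements of `S` are squares modulo each other. -/
def Admissible (D : GaussianInt) (S : Set GaussianInt) : Prop :=
  (∀ l ∈ S, Attached D l) ∧ ∀ l ∈ S, ∀ m ∈ S, m ≠ l → IsSquareMod m l

section field

variable {K : Type} [Field K] [NumberField K]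

/-- The curve `y² = x³ - D² x` over an extension `M` of `K = ℚ(i)`. -/
noncomputable def curve (e : GaussianInt ≃+* 𝓞 K) (D : GaussianInt) (M : Type) [Field M]
    [Algebra K M] : WeierstrassCurve M :=
  ⟨0, 0, 0, -(algebraMap K M ((e D : 𝓞 K) : K)) ^ 2, 0⟩

/-- `F = K(√l : l ∈ S)`. -/
def Generated (e : GaussianInt ≃+* 𝓞 K) (S : Set GaussianInt) (F : Type) [Field F] [Algebra K F] :
    Prop :=
  ∃ r : GaussianInt → F, (∀ l ∈ S, r l ^ 2 = algebraMap K F ((e l : 𝓞 K) : K)) ∧
    ∀ L : Subfield F, (∀ k : K, algebraMap K F k ∈ L) → (∀ l ∈ S, r l ∈ L) → L = ⊤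

/-- The assertion on `F = K(√l : l ∈ S)`: if `S` is finite then `[F : K] = 2 ^ #S`; the group `E_D(F)`
has exactly four elements; and for every number field `M` with `K ⊆ M ⊆ F` the group `E_D(M)` has exactly
four elements, and the `2`-primary part of `Ш(E_D / M)` is finite and killed by `[M : K]`. -/
def Over (e : GaussianInt ≃+* 𝓞 K) (D : GaussianInt) (S : Set GaussianInt) (F : Type) [Field F]
    [Algebra K F] : Prop :=
  (S.Finite → Module.finrank K F = 2 ^ S.ncard) ∧
  Nat.card (curve e D F).toAffine.Point = 4 ∧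
  ∀ (M : IntermediateField K F) [NumberField M],
    Nat.card (curve e D M).toAffine.Point = 4 ∧ TwoPart (curve e D M) (Module.finrank K M)

end field

/-- The assertion on `D`, with `m` the number of the primary primes dividing `D`: `m` is positive; for
all finite admissible `S` the primes `l ∉ S` such that `S ∪ {l}` is admissible have the density
`m / 2 ^ (m + #S)` among the primes congruent to `1` modulo `4`, there are infinitely many of them, and
`S` is contained in an infinite admissible set; and for every field `K` with an isomorphism `e` of the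
ring of Gaussian integers with its ring of integers (that is, `K = ℚ(i)`) the `2`-primary part of
`Ш(E_D / K)` is trivial, and for every finite or infinite admissible `S` there is a field
`F = K(√l : l ∈ S)`, and the assertion `Over` holds for all such `F`. -/
def Towers (D : GaussianInt) : Prop :=
  0 < {π : GaussianInt | Prime π ∧ Primary π ∧ π ∣ D}.ncard ∧
  (∀ S : Finset GaussianInt, Admissible D (S : Set GaussianInt) →
    Tendsto (fun X : ℕ =>
      ({l : GaussianInt | l.norm ≤ X ∧ l ∉ S ∧
          Admissible D (insert l (S : Set GaussianInt))}.ncard : ℝ) /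
        ({l : GaussianInt | l.norm ≤ X ∧ Prime l ∧ (4 : GaussianInt) ∣ l - 1}.ncard : ℝ)) atTop
      (𝓝 (({π : GaussianInt | Prime π ∧ Primary π ∧ π ∣ D}.ncard : ℝ) /
        2 ^ ({π : GaussianInt | Prime π ∧ Primary π ∧ π ∣ D}.ncard + S.card))) ∧
    {l : GaussianInt | l ∉ S ∧ Admissible D (insert l (S : Set GaussianInt))}.Infinite ∧
    ∃ S' : Set GaussianInt, (S : Set GaussianInt) ⊆ S' ∧ S'.Infinite ∧ Admissible D S') ∧
  ∀ (K : Type) [Field K] [NumberField K] (e : GaussianInt ≃+* 𝓞 K),
    TwoPart (curve e D K) 1 ∧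
    ∀ S : Set GaussianInt, Admissible D S →
      (∃ (F : Type) (_ : Field F) (_ : Algebra K F), Generated e S F) ∧
      ∀ (F : Type) [Field F] [Algebra K F], Generated e S F → Over e D S F

section proof

open Pool.Agent.Y699 (PP PS PD mem_PD qr Good qr_zero_iff PS_one)
open Pool.Agent.V7H91.GT
open Pool.Agent.V7H91.SH (sha_K sha_M sha_finM)
open Pool.Agent.W164.RC (prim_iff_dvd)

theorem primary_iff (D : GaussianInt) :
    Primary D ↔ Pool.Agent.H304R2.EC.A1.prim D := (prim_iff_dvd D).symm

theorem pp_iff (π : GaussianInt) : PP π ↔ Prime π ∧ Primary π :=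
  ⟨fun h => ⟨h.pr, (primary_iff π).2 h.prm⟩, fun h => ⟨h.1, (primary_iff π).1 h.2⟩⟩

theorem sq_iff {π x : GaussianInt} (h : ¬ π ∣ x) : IsSquareMod x π ↔ qr π x = 1 := by
  unfold IsSquareMod qr
  rw [if_neg h]
  constructor
  · intro h1
    rw [if_pos h1]
  · intro h1
    by_contra h2
    rw [if_neg h2] at h1
    norm_num at h1

theorem mem_PD' {D : GaussianInt} (hD : D ≠ 0) (π : GaussianInt) :
    π ∈ PD D ↔ Prime π ∧ Primary π ∧ π ∣ D := by
  rw [mem_PD hD, pp_iff, and_assoc]

theorem good_iff (D : GaussianInt) : InClass D ↔ Good D := by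
  constructor
  · rintro ⟨h1, h2, h3, h4⟩
    have hps : PS D := ⟨(primary_iff D).1 h1, h2⟩
    refine ⟨hps, h3, fun d d' hd hd' hdd ha hb => ?_⟩
    have hPd : PS d := hps.of_dvd hd ⟨d', hdd⟩
    have hPd' : PS d' := hps.of_dvd hd' ⟨d, by rw [hdd, mul_comm]⟩
    have hdis : ∀ π : GaussianInt, Prime π → π ∣ d → ¬ π ∣ d' := by
      intro π hπ hπd hπd'
      apply hπ.not_isUnit
      apply hps.sqf
      rw [hdd]
      exact mul_dvd_mul hπd hπd'
    refine h4 d d' ((primary_iff d).2 hd) ((primary_iff d').2 hd') hdd ?_ ?_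
    · intro π hπ hπ1 hπd
      rw [sq_iff (hdis π hπ hπd)]
      exact ha π ((mem_PD' hPd.ne π).2 ⟨hπ, hπ1, hπd⟩)
    · intro π hπ hπ1 hπd
      rw [sq_iff (fun h => hdis π hπ h hπd)]
      exact hb π ((mem_PD' hPd'.ne π).2 ⟨hπ, hπ1, hπd⟩)
  · intro h
    refine ⟨(primary_iff D).2 h.ps.prm, h.ps.sqf, h.five, fun d d' hd hd' hdd ha hb => ?_⟩
    have hPd : PS d := h.ps.of_dvd ((primary_iff d).1 hd) ⟨d', hdd⟩
    have hPd' : PS d' := h.ps.of_dvd ((primary_iff d').1 hd') ⟨d, by rw [hdd, mul_comm]⟩
    have hdis : ∀ π : GaussianInt, Prime π → π ∣ d → ¬ π ∣ d' := by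
      intro π hπ hπd hπd'
      apply hπ.not_isUnit
      apply h.ps.sqf
      rw [hdd]
      exact mul_dvd_mul hπd hπd'
    refine h.ker d d' ((primary_iff d).1 hd) ((primary_iff d').1 hd') hdd ?_ ?_
    · intro π hπ
      obtain ⟨h1, h2, h3⟩ := (mem_PD' hPd.ne π).1 hπ
      rw [← sq_iff (hdis π h1 h3)]
      exact ha π h1 h2 h3
    · intro π hπ
      obtain ⟨h1, h2, h3⟩ := (mem_PD' hPd'.ne π).1 hπ
      rw [← sq_iff (fun h => hdis π h1 h h3)]
      exact hb π h1 h2 h3

theorem attached_iff {D : GaussianInt} (hD : PS D) (l : GaussianInt) :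
    Attached D l ↔ PP l ∧ l.norm % 8 = 1 ∧ ¬ l ∣ D ∧
      ∃ π ∈ PD D, qr l π = -1 ∧ ∀ ρ ∈ PD D, ρ ≠ π → qr l ρ = 1 := by
  have key : ¬ l ∣ D → ∀ π ∈ PD D, (¬ IsSquareMod π l ↔ qr l π = -1) ∧
      (IsSquareMod π l ↔ qr l π = 1) := by
    intro hl π hπ
    have h1 : ¬ l ∣ π := fun h => hl (h.trans ((mem_PD hD.ne).1 hπ).2)
    refine ⟨?_, sq_iff h1⟩
    rw [sq_iff h1]
    rcases Pool.Agent.Y699.qr_cases h1 with h2 | h2 <;> rw [h2] <;> norm_num
  constructor
  · rintro ⟨h1, h2, h3, π, ⟨hp1, hp2, hp3, hp4⟩, huniq⟩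
    have h4 := pq_iff.1 ⟨h1, h2⟩
    have hπ : π ∈ PD D := (mem_PD' hD.ne π).2 ⟨hp1, hp2, hp3⟩
    refine ⟨h4.1, h4.2, h3, π, hπ, ((key h3 π hπ).1).1 hp4, fun ρ hρ hne => ?_⟩
    rw [← (key h3 ρ hρ).2]
    by_contra hcon
    obtain ⟨h5, h6, h7⟩ := (mem_PD' hD.ne ρ).1 hρ
    exact hne (huniq ρ ⟨h5, h6, h7, hcon⟩)
  · rintro ⟨h1, h2, h3, π, hπ, h4, h5⟩
    have h6 := pq_iff.2 ⟨h1, h2⟩
    obtain ⟨hp1, hp2, hp3⟩ := (mem_PD' hD.ne π).1 hπ
    refine ⟨h6.prime, h6.four, h3, π, ⟨hp1, hp2, hp3, ((key h3 π hπ).1).2 h4⟩, ?_⟩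
    rintro ρ ⟨h7, h8, h9, h10⟩
    by_contra hne
    have hρ : ρ ∈ PD D := (mem_PD' hD.ne ρ).2 ⟨h7, h8, h9⟩
    exact h10 (((key h3 ρ hρ).2).2 (h5 ρ hρ hne))

theorem leaf_iff {D : GaussianInt} (hD : PS D) (S : Finset GaussianInt) :
    Admissible D (S : Set GaussianInt) ↔ Leaf D S := by
  constructor
  · rintro ⟨h1, h2⟩
    have h3 := fun l (hl : l ∈ S) => (attached_iff hD l).1 (h1 l (Finset.mem_coe.2 hl))
    refine ⟨fun l hl => (h3 l hl).1, fun l hl => (h3 l hl).2.1, fun l hl => (h3 l hl).2.2.1,
      fun l hl => (h3 l hl).2.2.2, fun l hl m hm hne => ?_⟩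
    rw [← sq_iff (fun h => hne ((h3 l hl).1.eq_of_dvd (h3 m hm).1 h).symm)]
    exact h2 l (Finset.mem_coe.2 hl) m (Finset.mem_coe.2 hm) hne
  · intro h
    refine ⟨fun l hl => ?_, fun l hl m hm hne => ?_⟩
    · have hl' := Finset.mem_coe.1 hl
      exact (attached_iff hD l).2 ⟨h.pp l hl', h.nm l hl', h.ndvd l hl', h.at0 l hl'⟩
    · have hl' := Finset.mem_coe.1 hl
      have hm' := Finset.mem_coe.1 hm
      rw [sq_iff (fun h1 => hne ((h.pp l hl').eq_of_dvd (h.pp m hm') h1).symm)]
      exact h.pw l hl' m hm' hne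

theorem admissible_mono {D : GaussianInt} {S T : Set GaussianInt} (h : Admissible D S)
    (hT : T ⊆ S) : Admissible D T :=
  ⟨fun l hl => h.1 l (hT hl), fun l hl m hm => h.2 l (hT hl) m (hT hm)⟩

theorem card_primes {D : GaussianInt} (hD : D ≠ 0) :
    {π : GaussianInt | Prime π ∧ Primary π ∧ π ∣ D}.ncard = (PD D).card := by
  rw [← Set.ncard_coe_finset]
  congr 1
  ext π
  rw [Finset.mem_coe, mem_PD' hD]
  rfl

theorem new_iff {D : GaussianInt} (hD : PS D) (S : Finset GaussianInt) (l : GaussianInt) :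
    (l ∉ S ∧ Admissible D (insert l (S : Set GaussianInt))) ↔ NL D S l := by
  unfold NL
  rw [← leaf_iff hD, Finset.coe_insert]

theorem dens {D : GaussianInt} (hD : PS D) {S : Finset GaussianInt} (hS : Leaf D S) :
    Tendsto (fun X : ℕ =>
      ({l : GaussianInt | l.norm ≤ X ∧ l ∉ S ∧
          Admissible D (insert l (S : Set GaussianInt))}.ncard : ℝ) /
        ({l : GaussianInt | l.norm ≤ X ∧ Prime l ∧ (4 : GaussianInt) ∣ l - 1}.ncard : ℝ)) atTop
      (𝓝 (((PD D).card : ℝ) / 2 ^ ((PD D).card + S.card))) := by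
  refine (leaf_dens hD hS).congr fun X => ?_
  have h1 : Q283.GA.NT (NL D S) X = {l : GaussianInt | l.norm ≤ X ∧ l ∉ S ∧
      Admissible D (insert l (S : Set GaussianInt))}.ncard := by
    unfold Q283.GA.NT
    congr 1
    ext l
    constructor
    · rintro ⟨h1, h2, h3⟩
      exact ⟨h2, (new_iff hD S l).2 h3⟩
    · rintro ⟨h1, h2⟩
      have h3 := (new_iff hD S l).1 h2
      exact ⟨pq_iff.2 ⟨h3.2.pp l (Finset.mem_insert_self _ _),
        h3.2.nm l (Finset.mem_insert_self _ _)⟩, h1, h3⟩
  have h2 : Q283.GA.NT (fun π => (2 : ℤ) ^ (1 + 2) ∣ π.norm - 1) X =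
      {l : GaussianInt | l.norm ≤ X ∧ Prime l ∧ (4 : GaussianInt) ∣ l - 1}.ncard := by
    unfold Q283.GA.NT
    congr 1
    ext l
    constructor
    · rintro ⟨h1, h2, h3⟩
      exact ⟨h2, h1.prime, h1.four⟩
    · rintro ⟨h1, h2, h3⟩
      have h4 : Q283.GA.Pq l := ⟨h2, h3⟩
      refine ⟨h4, h1, ?_⟩
      have h5 := (pq_iff.1 h4).2
      norm_num
      omega
  rw [h1, h2]

theorem infinite_new {D : GaussianInt} (hD : Good D) {S : Finset GaussianInt} (hS : Leaf D S) :
    {l : GaussianInt | l ∉ S ∧ Admissible D (insert l (S : Set GaussianInt))}.Infinite := by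
  obtain ⟨i, -⟩ := Pool.Agent.Y699.good_nonempty hD
  have h1 := leaf_inf hD.ps ⟨i.1, i.2⟩ hS
  refine h1.mono fun l hl => ?_
  exact (new_iff hD.ps S l).2 hl

/-- every finite admissible set is contained in an infinite one -/
theorem infinite_set {D : GaussianInt} (hD : Good D) {S : Finset GaussianInt} (hS : Leaf D S) :
    ∃ S' : Set GaussianInt, (S : Set GaussianInt) ⊆ S' ∧ S'.Infinite ∧ Admissible D S' := by
  obtain ⟨S', h1, h2⟩ := zorn_subset_nonempty {T : Set GaussianInt | Admissible D T} (by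
    intro c hc hchain _
    refine ⟨⋃₀ c, ⟨?_, ?_⟩, fun T hT => Set.subset_sUnion_of_mem hT⟩
    · rintro l ⟨T, hT, hl⟩
      exact (hc hT).1 l hl
    · rintro l ⟨T, hT, hl⟩ m ⟨T', hT', hm⟩ hne
      rcases hchain.total hT hT' with h3 | h3
      · exact (hc hT').2 l (h3 hl) m hm hne
      · exact (hc hT).2 l hl m (h3 hm) hne) (S : Set GaussianInt) ((leaf_iff hD.ps S).2 hS)
  refine ⟨S', h1, ?_, h2.1⟩
  intro hfin
  obtain ⟨S0, rfl⟩ : ∃ S0 : Finset GaussianInt, (S0 : Set GaussianInt) = S' :=
    ⟨hfin.toFinset, hfin.coe_toFinset⟩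
  have h3 := infinite_new hD ((leaf_iff hD.ps S0).1 h2.1)
  obtain ⟨l, hl1, hl2⟩ := h3.nonempty
  have h4 := h2.2 hl2 (Set.subset_insert _ _)
  exact hl1 (Finset.mem_coe.1 (h4 (Set.mem_insert _ _)))

section field

variable {K : Type} [Field K] [NumberField K]

theorem curve_eq (e : GaussianInt ≃+* 𝓞 K) (D : GaussianInt) (M : Type) [Field M] [Algebra K M] :
    curve e D M = Pool.Agent.Y699.crv (algebraMap K M ((e D : 𝓞 K) : K)) := rfl

/-- There is a field generated by the square roots. -/
theorem exists_generated (e : GaussianInt ≃+* 𝓞 K) (S : Set GaussianInt) :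
    ∃ (F : Type) (_ : Field F) (_ : Algebra K F), Generated e S F := by
  have hroot : ∀ l : GaussianInt, ∃ x : AlgebraicClosure K,
      x ^ 2 = algebraMap K (AlgebraicClosure K) ((e l : 𝓞 K) : K) := fun l =>
    IsAlgClosed.exists_pow_nat_eq _ (by norm_num)
  choose r hr using hroot
  let M : IntermediateField K (AlgebraicClosure K) := IntermediateField.adjoin K (r '' S)
  have hrM : ∀ l ∈ S, r l ∈ M := fun l hl => IntermediateField.subset_adjoin K _ ⟨l, hl, rfl⟩
  refine ⟨M, inferInstance, inferInstance, fun l => if h : l ∈ S then ⟨r l, hrM l h⟩ else 0,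
    fun l hl => ?_, fun L hL1 hL2 => ?_⟩
  · simp only [dif_pos hl]
    apply Subtype.ext
    exact hr l
  · rw [eq_top_iff]
    intro y _
    let L' : IntermediateField K (AlgebraicClosure K) :=
      { (L.map (algebraMap M (AlgebraicClosure K))) with
        algebraMap_mem' := fun k => ⟨algebraMap K M k, hL1 k, rfl⟩ }
    have h1 : M ≤ L' := by
      apply IntermediateField.adjoin_le_iff.2
      rintro _ ⟨l, hl, rfl⟩
      have h2 := hL2 l hl
      simp only [dif_pos hl] at h2
      exact ⟨_, h2, rfl⟩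
    obtain ⟨y', hy', h2⟩ := h1 y.2
    have h3 : y' = y := Subtype.ext h2
    rw [← h3]
    exact hy'

/-- The degree. -/
theorem degree (e : GaussianInt ≃+* 𝓞 K) {D : GaussianInt} {S : Finset GaussianInt} (hL : Leaf D S)
    {F : Type} [Field F] [Algebra K F] {r : GaussianInt → F}
    (hr : ∀ l ∈ S, r l ^ 2 = algebraMap K F ((e l : 𝓞 K) : K))
    (hg : ∀ L : Subfield F, (∀ k : K, algebraMap K F k ∈ L) → (∀ l ∈ S, r l ∈ L) → L = ⊤) :
    Module.finrank K F = 2 ^ S.card := by
  haveI : FiniteDimensional K F := (gal2 (I := {l // l ∈ S}) (fun l => ((e l.1 : 𝓞 K) : K))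
    (fun l => r l.1) (fun l => hr l.1 l.2) (fun L h1 h2 => hg L h1 fun l hl => h2 ⟨l, hl⟩)).1
  haveI : NumberField F := NumberField.of_module_finite K F
  have h : Rt F e S r := ⟨hL.pp, hr, hg⟩
  have h1 := h.finrankM ⊤
  rw [IntermediateField.finrank_top'] at h1
  rw [← h1, ← Finset.card_powerset]
  congr 1
  ext T
  rw [mem_HM, Finset.mem_powerset]
  exact ⟨fun h2 => h2.1, fun h2 => ⟨h2, trivial⟩⟩

/-- The assertion on the number fields contained in `F`. -/
theorem two_of (e : GaussianInt ≃+* 𝓞 K) {D : GaussianInt} (hD : Good D) {M : Type} [Field M]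
    [NumberField M] [Algebra K M] [IsGalois K M] {S : Finset GaussianInt} (hL : Leaf D S)
    {H : Finset (Finset GaussianInt)} {y : Finset GaussianInt → 𝓞 M} (C : Ctx e S H y) :
    TwoPart (curve e D M) (Module.finrank K M) :=
  ⟨sha_finM hD hL C, fun x ⟨n, hn⟩ => sha_M hD hL C n x hn⟩

theorem two_K (e : GaussianInt ≃+* 𝓞 K) {D : GaussianInt} (hD : Good D) :
    TwoPart (curve e D K) 1 := by
  have h1 : ∀ x : Sha (curve e D K), (∃ n : ℕ, 2 ^ n • x = 0) → x = 0 :=
    fun x ⟨n, hn⟩ => sha_K (e := e) hD n x hn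
  refine ⟨(Set.finite_singleton 0).subset fun x hx => h1 x hx, fun x hx => ?_⟩
  rw [one_smul]
  exact h1 x hx

theorem over_of (e : GaussianInt ≃+* 𝓞 K) {D : GaussianInt} (hD : Good D) {S : Set GaussianInt}
    (hS : Admissible D S) (F : Type) [Field F] [Algebra K F] (hF : Generated e S F) :
    Over e D S F := by
  obtain ⟨r, hr, hg⟩ := hF
  have h : RtI F e S r := ⟨hr, hg⟩
  have hL : ∀ T : Finset GaussianInt, (T : Set GaussianInt) ⊆ S → Leaf D T := fun T hT =>
    (leaf_iff hD.ps T).1 (admissible_mono hS hT)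
  haveI : CharZero F := charZero_of_injective_algebraMap (algebraMap K F).injective
  refine ⟨fun hfin => ?_, ?_, fun M _ => ?_⟩
  · have h1 : ((hfin.toFinset : Finset GaussianInt) : Set GaussianInt) = S := hfin.coe_toFinset
    have h2 := degree e (hL hfin.toFinset h1.le) (r := r)
      (fun l hl => hr l (hfin.mem_toFinset.1 hl))
      (fun L h3 h4 => hg L h3 fun l hl => h4 l (hfin.mem_toFinset.2 hl))
    rw [h2, Set.ncard_eq_toFinset_card S hfin]
  · exact h.cardS hD hL (AlgHom.id K F)
  · have hc : Nat.card (curve e D M).toAffine.Point = 4 := h.cardS hD hL M.val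
    refine ⟨hc, ?_⟩
    obtain ⟨T, H, y, hT, C, hgal⟩ := h.ctxI (fun T hT => (hL T hT).pp) M
    exact two_of e hD (hL T hT) C

end field

theorem towers_of {D : GaussianInt} (hD : Good D) : Towers D := by
  have h0 := card_primes hD.ps.ne
  refine ⟨?_, fun S hS => ?_, fun K _ _ e => ⟨two_K e hD, fun S hS => ⟨exists_generated e S,
    fun F _ _ hF => over_of e hD hS F hF⟩⟩⟩
  · rw [h0]
    obtain ⟨i, -⟩ := Pool.Agent.Y699.good_nonempty hD
    exact Finset.card_pos.2 ⟨i.1, i.2⟩
  · have hL := (leaf_iff hD.ps S).1 hS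
    rw [h0]
    exact ⟨dens hD.ps hL, infinite_new hD hL, infinite_set hD hL⟩

end proof

/-- **Main theorem.**  All `D` in the class have the property `Towers`, and for a positive constant
`c` and all large `X` the class has at least `c X` elements of norm at most `X`. -/
theorem result : (∀ D : GaussianInt, InClass D → Towers D) ∧
    ∃ c : ℝ, 0 < c ∧ ∃ X₀ : ℕ, ∀ X : ℕ, X₀ ≤ X →
      c * X ≤ ({D : GaussianInt | D.norm ≤ X ∧ InClass D}.ncard : ℝ) := by
  refine ⟨fun D hD => towers_of ((good_iff D).1 hD), ?_⟩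
  obtain ⟨c, hc, X₀, h⟩ := Pool.Agent.Y699.positive
  refine ⟨c, hc, X₀, fun X hX => (h X hX).trans ?_⟩
  have h1 : ((Pool.Agent.Y699.GB X : Finset GaussianInt) : Set GaussianInt) ⊆
      {D : GaussianInt | D.norm ≤ X ∧ InClass D} := by
    intro D hD
    have h2 : D ∈ Pool.Agent.Y699.SB X ∧ Pool.Agent.Y699.Good D := by
      have h0 := Finset.mem_coe.1 hD
      unfold Pool.Agent.Y699.GB at h0
      classical
      exact Finset.mem_filter.1 h0
    have h3 := (Pool.Agent.Y699.mem_SB).1 h2.1
    refine ⟨?_, (good_iff D).2 h2.2⟩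
    have h4 : D.norm.natAbs ≤ X := h3.1
    omega
  have hfin : {D : GaussianInt | D.norm ≤ X ∧ InClass D}.Finite := by
    refine (Pool.Agent.Y699.fin_norm_le X).subset ?_
    rintro D ⟨h3, -⟩
    have h0 := GaussianInt.norm_nonneg D
    show D.norm.natAbs ≤ X
    omega
  have h5 := Set.ncard_le_ncard h1 hfin
  rw [Set.ncard_coe_finset] at h5
  exact_mod_cast h5

end Pool.Agent.Results.MP_78d38b_nt.GaussianTowersShaH91
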