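import Pool.Agent.V7H80.MQ.Tow2

/-!
# Finite and large 2-primary parts of the Tate-Shafarevich groups of the twists of `X_0(49)` over
# multiquadratic fields

The class consists of the squarefree numbers `D ≥ 1` with all prime factors `≡ 1 mod 4`, and `E_M` is the
quadratic twist by `M` of `X_0(49) : y² + x y = x³ - x² - 2 x - 1`. Let `d_1, …, d_n` be numbers of the
class, independent modulo squares, and `F = ℚ(√d_1, …, √d_n)`, a totally real field of degree `2 ^ n`.

* If the `2 ^ n` curves `E_N` over `ℚ`, `N` in the class and `N M ∏_{i ∈ T} d_i` a square for some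
  `T ⊆ {1, …, n}`, have finitely many rational points and `Ш(E_N/ℚ)[2] = 0` (`Good M d`), then
  `Ш(E_M/F)[2^∞]` is finite and killed by `2 ^ n`, and `Ш(E_M/F)[2]` has at least `2 ^ (ω - n - 1)`
  elements, where `ω` is the number of the primes that divide `∏ d_i`, the primes ramified in `F`. The
  lower bound does not depend on `M`. (`E_M(F)` is finite too.)
* Over a fixed `F` the hypothesis `Good`, and with it the conclusion, holds for exactly the proportion
  `c ^ (2 ^ n)` of the twists `E_{M D}`, `c = ∏_{i ≥ 0} (1 - 2^{-(2i+1)}) = 0.4194...`.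
* If `M` is good for `F`, then, for every `k`, for exactly the proportion `c ^ (2 ^ n)` of the `D` of the
  class, `M` is good for `F(√D)` and `Ш(E_M/F(√D))[2^∞]` is finite, killed by `2 ^ (n + 1)`, and has at
  least `2 ^ k` elements killed by `2`. For instance (`n = 0`, `M = 1`): for exactly the proportion `c` of
  the `D`, for every `k`, `E_D(ℚ)` is finite, `Ш(E_D/ℚ)[2] = 0` and `Ш(X_0(49)/ℚ(√D))[2^∞]` is a finite
  elementary abelian 2-group with at least `2 ^ k` elements.
* For every function `g` and every finite set `A` of numbers `M` with `E_M(ℚ)` finite and `Ш(E_M/ℚ)[2] = 0`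
  there are an infinite set `𝓜 ⊇ A` and an infinite tower of the fields `F_m = ℚ(√D_0, …, √D_{m-1})` of
  degree `2 ^ m` such that for all `M ∈ 𝓜` and `m ≥ 1` the group `Ш(E_M/F_m)[2^∞]` is finite, killed by
  `2 ^ m`, and has at least `2 ^ g(m - 1)` elements killed by `2`.

The proof. The elements of order two are classes of products `e` of primes that divide `M ∏ d_i` and are
ramified in `F` or split in `ℚ(√-7)`: at a place over a prime ramified in `F` the curve `E_M` acquires good
reduction and `e` becomes the class of a unit, so that there is no condition there, and the remaining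
conditions are linear over `𝔽₂`, one for every prime of `M` used and one at `7`. Only `2 ^ n` of the
classes become trivial in `F`, since the points of `E_M` over `F` give nothing new (`E_M(F)` is finite).
The finiteness of `Ш(E_M/F)[2]` is from the descent in the starting files (`Y682`), the exponent from the
restriction and corestriction for the `2 ^ n` twists, the joint law for the curves over `ℚ` from the
starting files (`MP_03e5d0_nt/FullClassX49`), and that almost all numbers of the class have many prime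
factors from a sieve there (`R413/SQ`).
-/

set_option autoImplicit false

open NumberField Filter Topology

namespace Pool.Agent.Results.MP_78d38b_nt.MultiquadraticShaH80

open Pool.Agent.TH841.NF.D (Sha)
open Pool.Agent.Results.MP_4a9ea6_nt.TwoPartTwistsX49 (twist)
open Pool.Agent.Results.MP_92892c_nt.FullClassTwoPartX49 (Family RankZeroShaTwo num)
open Pool.Agent.Results.MP_03e5d0_nt.FullClassX49 (tw c)

/-- The curve `E_M : y² + x y = x³ - (3 M + 1)/4 x² - 2 M² x - M³` over the field `F`. -/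
abbrev curve (M : ℕ) (F : Type) [Field F] : WeierstrassCurve F :=
  (twist M).map (Int.castRingHom F)

/-- The numbers `d i` are independent modulo squares. -/
def Independent {n : ℕ} (d : Fin n → ℕ) : Prop :=
  ∀ T : Finset (Fin n), T.Nonempty → ¬ IsSquare (∏ i ∈ T, d i)

/-- The field `F` is generated by square roots of the `d i`. -/
def GeneratedBy (F : Type) [Field F] {n : ℕ} (d : Fin n → ℕ) : Prop :=
  ∃ x : Fin n → F, (∀ i, x i ^ 2 = (d i : F)) ∧ ∀ L : Subfield F, (∀ i, x i ∈ L) → L = ⊤

/-- For all `N` in the class such that `N M ∏_{i ∈ T} d_i` is a square for some `T`, the group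
`E_N(ℚ)` is finite and `Ш(E_N/ℚ)` has no element of order two. -/
def Good (M : ℕ) {n : ℕ} (d : Fin n → ℕ) : Prop :=
  ∀ (T : Finset (Fin n)) (N : ℕ), Family N → IsSquare (N * M * ∏ i ∈ T, d i) → RankZeroShaTwo N

open Classical in
/-- `E_M(F)` is finite, `Ш(E_M/F)[2^∞]` is finite and killed by `2 ^ m`, and `Ш(E_M/F)` has at least
`2 ^ k` elements killed by `2`. -/
structure ShaTwo (M : ℕ) (F : Type) [Field F] [NumberField F] (m k : ℕ) : Prop where
  points : Finite (curve M F).toAffine.Point
  finite : {y : Sha (curve M F) | ∃ j : ℕ, 2 ^ j • y = 0}.Finite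
  exponent : ∀ (j : ℕ) (y : Sha (curve M F)), 2 ^ j • y = 0 → 2 ^ m • y = 0
  many : 2 ^ k ≤ Nat.card {y : Sha (curve M F) // 2 • y = 0}

theorem ShaTwo.mono {M : ℕ} {F : Type} [Field F] [NumberField F] {m k k' : ℕ}
    (h : ShaTwo M F m k) (hk : k' ≤ k) : ShaTwo M F m k' :=
  ⟨h.points, h.finite, h.exponent, (Nat.pow_le_pow_right two_pos hk).trans h.many⟩

theorem one_field {n : ℕ} {d : Fin n → ℕ} {M : ℕ} (hM : Family M) (hd : ∀ i, Family (d i))
    (hind : Independent d) (hg : Good M d) {F : Type} [Field F] [NumberField F]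
    (hF : GeneratedBy F d) : Module.finrank ℚ F = 2 ^ n ∧ IsTotallyReal F ∧
      ShaTwo M F n ((∏ i, d i).primeFactors.card - (n + 1)) := by
  obtain ⟨x, h1, h2⟩ := hF
  obtain ⟨k1, k2, k3, k4, k5, k6⟩ := Pool.Agent.V7H80.MQ.sha_main hM hd hind hg ⟨h1, h2⟩
  exact ⟨k1, k2, k3, k4, k5, k6⟩

theorem many_of {n : ℕ} {d : Fin (n + 1) → ℕ} (hd : ∀ i, Family (d i)) (i : Fin (n + 1)) {k : ℕ}
    (h : k + n + 2 ≤ (d i).primeFactors.card) :
    k ≤ (∏ i, d i).primeFactors.card - (n + 1 + 1) := by
  have h1 : (d i).primeFactors ⊆ (∏ i, d i).primeFactors :=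
    Nat.primeFactors_mono (Finset.dvd_prod_of_mem d (Finset.mem_univ i))
      (Finset.prod_ne_zero_iff.2 fun j _ => (hd j).1.ne_zero)
  have h2 := Finset.card_le_card h1
  omega

theorem result :
    (∀ (n : ℕ) (d : Fin n → ℕ) (M : ℕ), Family M → (∀ i, Family (d i)) → Independent d →
      Good M d → ∀ (F : Type) [Field F] [NumberField F], GeneratedBy F d →
        Module.finrank ℚ F = 2 ^ n ∧ IsTotallyReal F ∧
          ShaTwo M F n ((∏ i, d i).primeFactors.card - (n + 1))) ∧
    (∀ (n : ℕ) (d : Fin n → ℕ) (M : ℕ), Family M → (∀ i, Family (d i)) → Independent d →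
      Tendsto (fun X : ℕ => (num (fun D => Good (tw M D) d ∧
          ∀ (F : Type) [Field F] [NumberField F], GeneratedBy F d →
            ShaTwo (tw M D) F n ((∏ i, d i).primeFactors.card - (n + 1))) X : ℝ) /
        (num (fun _ => True) X : ℝ)) atTop (𝓝 (c ^ 2 ^ n))) ∧
    (∀ (n : ℕ) (d : Fin n → ℕ) (M : ℕ), Family M → (∀ i, Family (d i)) → Independent d →
      Good M d → ∀ k : ℕ,
      Tendsto (fun X : ℕ => (num (fun D => Independent (Fin.snoc d D : Fin (n + 1) → ℕ) ∧
          Good M (Fin.snoc d D : Fin (n + 1) → ℕ) ∧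
          ∀ (F : Type) [Field F] [NumberField F],
            GeneratedBy F (Fin.snoc d D : Fin (n + 1) → ℕ) → ShaTwo M F (n + 1) k) X : ℝ) /
        (num (fun _ => True) X : ℝ)) atTop (𝓝 (c ^ 2 ^ n))) ∧
    (∀ (A : Finset ℕ) (g : ℕ → ℕ), (∀ M ∈ A, Family M ∧ RankZeroShaTwo M) →
      ∃ (𝓜 : Set ℕ) (D : ℕ → ℕ), (A : Set ℕ) ⊆ 𝓜 ∧ 𝓜.Infinite ∧ (∀ M ∈ 𝓜, Family M) ∧
        (∀ i, Family (D i)) ∧ ∀ m : ℕ, Independent (fun i : Fin m => D i) ∧
          ∀ (F : Type) [Field F] [NumberField F], GeneratedBy F (fun i : Fin (m + 1) => D i) →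
            Module.finrank ℚ F = 2 ^ (m + 1) ∧ IsTotallyReal F ∧
              ∀ M ∈ 𝓜, ShaTwo M F (m + 1) (g m)) ∧
    0.4194 < c ∧ c < 0.4195 := by
  refine ⟨fun n d M hM hd hind hg F _ _ hF => one_field hM hd hind hg hF, ?_, ?_, ?_,
    Pool.Agent.Results.MP_03e5d0_nt.FullClassX49.result.2.2.1,
    Pool.Agent.Results.MP_03e5d0_nt.FullClassX49.result.2.2.2⟩
  · intro n d M hM hd hind
    exact Pool.Agent.V7H80.MQ.law_tw hM hd hind _ fun D hD hg F _ _ hF =>
      (one_field (Pool.Agent.V7H80.MQ.fam_tw hM hD) hd hind hg hF).2.2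
  · intro n d M hM hd hind hg k
    refine Pool.Agent.V7H80.MQ.law_gen hM hd hind hg _ (k + n + 2)
      fun D hD h1 h2 h3 F _ _ hF => ?_
    have hf := Pool.Agent.V7H80.MQ.ext_fam hd hD
    refine (one_field hM hf h1 h2 hF).2.2.mono (many_of hf (Fin.last n) ?_)
    have e : Pool.Agent.V7H80.MQ.ext d D (Fin.last n) = D := Fin.snoc_last (α := fun _ => ℕ) D d
    rw [e]
    exact h3
  · intro A g hA
    obtain ⟨𝓜, D, h1, h2, h3, h4, h5⟩ :=
      Pool.Agent.V7H80.MQ.tow_seq hA (fun m => g m + m + 2)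
    obtain ⟨M₀, hM₀⟩ := h2.nonempty
    refine ⟨𝓜, D, h1, h2, h3, fun i => (h4 i).1, fun m => ⟨(h5 m).1, fun F _ _ hF => ?_⟩⟩
    have hf : ∀ i : Fin (m + 1), Family (D i) := fun i => (h4 i).1
    have h6 := fun M (hM : M ∈ 𝓜) => one_field (h3 M hM) hf (h5 (m + 1)).1 ((h5 (m + 1)).2 M hM) hF
    refine ⟨(h6 M₀ hM₀).1, (h6 M₀ hM₀).2.1, fun M hM => (h6 M hM).2.2.mono ?_⟩
    exact many_of hf (Fin.last m) (h4 m).2

end Pool.Agent.Results.MP_78d38b_nt.MultiquadraticShaH80
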