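import Pool.Agent.V7H54.A.Fin

/-!
# The 2-primary part of the Tate-Shafarevich group is trivial for a positive proportion of the curves
# `D y² = x³ + a x + t` (`a` fixed, `t` varies)

Let `a > 0` be an integer prime to `6` which is not a square. We consider the elliptic surface

  `y² = x³ + a x + t`

over the `t`-line. The `j`-invariant is not constant. The members are a family with ONE parameter, of density
zero in the family of all elliptic curves ordered by height (about `X ^ (1/2)` curves of height at most `X`,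
of about `X ^ (5/6)`); the results for a positive proportion of all elliptic curves do not say anything
about it.

Theorem. There are a finite set `S` of prime numbers and `c > 0`, such that for all large `T` there are at
least `c T` integers `t` with `|t| ≤ T` for which for some product `D` of different primes in `S`
the curve `E : D y² = x³ + a x + t`, that is `y² = x³ + D² a x + D³ t`, is in minimal form and has: for
ALL `K` in the class `𝓔(E, S)` the 2-Selmer group of `E` over `K` is trivial, `Ш(E / K)[2^∞] = 0`, and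
`E(K)` is finite of odd order. Here `𝓔(E, S)` is the class of the Galois extensions `K / ℚ` of 2-power
degree, unramified at `2`, in which the primes in `S` split completely and such that the cubic polynomial is
irreducible modulo the prime numbers which are ramified in `K`; so `K = ℚ` is one of them.

Hence for one `D`, with `A = D² a`: among the curves `y² = x³ + A x + t`, `t ∈ ℤ`, `|t| ≤ T`, ordered by `|t|`,
those for which the 2-Selmer group is trivial over `ℚ` and over all `K` in the class have positive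
upper density.

The proof: by the parametrization of 2-Selmer elements by binary quartic forms (Birch and
Swinnerton-Dyer, Bhargava-Shankar), or rather by integral symmetric `3 × 3` matrices and square roots of
ideal classes in `ℤ[θ]`, one has to count the reduced forms for which the first invariant
is FIXED and the second is at most `T`. They are the integral points on a quadric `12 a e - 3 b d + c² = I` in
a region which goes to infinity in the cusp. The files `Gl`, `Gm`, `Sl`, `Rg`, `Qc`, `Cn` prove an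
upper bound of the right order for this number, with congruence conditions modulo the primes in `S`
(which gain a factor `2` for each of the primes); the files `Herm`, ..., `Qu` do the reduction theory. A class
which is not excluded by the local conditions at the primes of `S` for one of the twists gives such an
integral point, so for a positive proportion of the `t` (in a residue class) one of the twists has no
Selmer element. The local conditions over the fields `K` are those of `UniformTwoExtensionsH54`.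

Files `Pool/Agent/V7H54/A/` (helper54). The linear algebra over the primes in `S` and the reduction theory are
modelled on project PF (helper783, with many others).
-/

set_option autoImplicit false
set_option linter.all false

namespace Pool.Agent.Results.MP_78d38b_nt.OneParameterH54

open Filter NumberField IsDedekindDomain Pool.Agent.TH115.GD
open scoped Classical

/-- The curve `y ^ 2 = x ^ 3 + A x + B` over `K`. -/
def curve (K : Type) [Field K] (A B : ℤ) : WeierstrassCurve K := ⟨0, 0, 0, (A : K), (B : K)⟩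

section sha

variable (K : Type) [Field K] [NumberField K] (W : WeierstrassCurve K)

/-- The cocycle `f` of `Gal(Sep K / K)` is a coboundary over the completion of `K` at every maximal
ideal of the ring of integers and over `ℝ` for every real place (at the complex places there is no
condition). -/
structure Locally (f : (Sep K ≃ₐ[K] Sep K) → Pt W (Sep K)) : Prop where
  finite : ∀ v : HeightOneSpectrum (𝓞 K), LocTriv W (Comp (𝓞 K) K v) (Sep (Comp (𝓞 K) K v)) f
  real : ∀ ρ : K →+* ℝ, letI := ρ.toAlgebra; LocTriv W ℝ (Sep ℝ) f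

/-- The 2-Selmer group is zero: every continuous cocycle with values in the points of order two
which is a coboundary over all completions, with values in all points, is the coboundary of a point of
order two. -/
def SelTwoZero : Prop :=
  ∀ f : (Sep K ≃ₐ[K] Sep K) → Pt W (Sep K), IsCoc W f → (∀ σ, (2 : ℕ) • f σ = 0) →
    Locally K W f → ∃ T : Pt W (Sep K), (2 : ℕ) • T = 0 ∧ ∀ σ, f σ = act W (rs K σ) T - T

/-- The 2-primary part of the Tate-Shafarevich group is zero: every continuous cocycle whose class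
is killed by a power of two and which is a coboundary over all completions is a coboundary. -/
def ShaTwoZero : Prop :=
  ∀ f : (Sep K ≃ₐ[K] Sep K) → Pt W (Sep K), IsCoc W f → Locally K W f →
    (∃ (n : ℕ) (Q : Pt W (Sep K)), ∀ σ, 2 ^ n • f σ = act W (rs K σ) Q - Q) →
    ∃ Q : Pt W (Sep K), ∀ σ, f σ = act W (rs K σ) Q - Q

end sha

/-- `E : y ^ 2 = x ^ 3 + A x + B` over `K`: trivial 2-Selmer group, trivial 2-primary part of the
Tate-Shafarevich group, and a finite group of points, of odd order. -/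
structure Good (K : Type) [Field K] [NumberField K] (A B : ℤ) : Prop where
  sel : SelTwoZero K (curve K A B)
  sha : ShaTwoZero K (curve K A B)
  finite : Finite (Pt (curve K A B) K)
  odd : Odd (Nat.card (Pt (curve K A B) K))

/-- The prime number `p` is ramified in `K`: it is contained in the square of a prime ideal. -/
def Ramified (K : Type) [Field K] [NumberField K] (p : ℕ) : Prop :=
  ∃ 𝔓 : Ideal (𝓞 K), 𝔓.IsPrime ∧ (p : 𝓞 K) ∈ 𝔓 ^ 2

/-- The prime number `q` splits completely in `K`: the prime ideals of `K` over `q` are unramified over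
`q`, with `q` residue classes. -/
def SplitsCompletely (K : Type) [Field K] [NumberField K] (q : ℕ) : Prop :=
  ∀ 𝔓 : Ideal (𝓞 K), 𝔓.IsPrime → (q : 𝓞 K) ∈ 𝔓 →
    (q : 𝓞 K) ∉ 𝔓 ^ 2 ∧ Nat.card (𝓞 K ⧸ 𝔓) = q

/-- The class `𝓔(E, S)`, `E : y ^ 2 = x ^ 3 + A x + B`: `K / ℚ` is a Galois extension of 2-power degree,
unramified at `2`; all primes `q ∈ S` split completely in `K`; and `x ^ 3 + A x + B` is irreducible modulo
all prime numbers which are ramified in `K`. -/
structure InClass (S : Finset ℕ) (A B : ℤ) (K : Type) [Field K] [NumberField K] : Prop where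
  galois : IsGalois ℚ K
  degree : ∃ n : ℕ, Module.finrank ℚ K = 2 ^ n
  two : ¬ Ramified K 2
  split : ∀ q ∈ S, SplitsCompletely K q
  irreducible : ∀ p : ℕ, p.Prime → Ramified K p → Irreducible (Polynomial.X ^ 3 +
    Polynomial.C (A : ZMod p) * Polynomial.X + Polynomial.C (B : ZMod p) : Polynomial (ZMod p))

/-- `E : y ^ 2 = x ^ 3 + A x + B` is good over `ℚ` and over ALL the fields in the class, at once. -/
def GoodOverAll (S : Finset ℕ) (A B : ℤ) : Prop :=
  4 * A ^ 3 + 27 * B ^ 2 ≠ 0 ∧ Good ℚ A B ∧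
  ∀ (K : Type) [Field K] [NumberField K], InClass S A B K → Good K A B

/-- The equation is minimal: no prime number `p` satisfies `p ^ 4 ∣ A` and `p ^ 6 ∣ B`. So different
pairs give nonisomorphic curves over `ℚ`. -/
def Minimal (A B : ℤ) : Prop := ∀ p : ℕ, p.Prime → ¬ ((p : ℤ) ^ 4 ∣ A ∧ (p : ℤ) ^ 6 ∣ B)

theorem ext_of {S : Finset ℕ} {A B : ℤ} {K : Type} [Field K] [NumberField K]
    (h : InClass S A B K) : Pool.Agent.V7H54.U.Ext ℚ S (Pool.Agent.V7H54.A.pol A B) K := by
  refine ⟨h.galois, h.degree, fun w hw 𝔔 h𝔔 hle => ?_, fun q hq 𝔔 h𝔔 => ⟨fun hm => ?_, fun hm =>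
    (h.split q hq 𝔔 h𝔔 hm).2⟩, fun w hw => ?_⟩
  · apply h.two
    refine ⟨𝔔, h𝔔, hle ?_⟩
    have h1 := Ideal.mem_map_of_mem (algebraMap (𝓞 ℚ) (𝓞 K)) hw
    rw [map_ofNat] at h1
    simpa using h1
  · exact (h.split q hq 𝔔 h𝔔 (Ideal.pow_le_self two_ne_zero hm)).1 hm
  · unfold Pool.Agent.V7H54.Unr at hw
    push Not at hw
    obtain ⟨𝔔, h𝔔, hle⟩ := hw
    obtain ⟨p, hp, hwp⟩ := Pool.Agent.V7H54.A.prime_eq w.isPrime w.ne_bot
    rw [hwp, Pool.Agent.V7H54.A.irr_zmod hp]
    refine h.irreducible p hp ⟨𝔔, h𝔔, hle ?_⟩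
    have h0 : (((p : ℤ)) : 𝓞 ℚ) ∈ w.asIdeal := by
      rw [hwp, Pool.Agent.V7H54.A.mem_sp]
    have h1 := Ideal.mem_map_of_mem (algebraMap (𝓞 ℚ) (𝓞 K)) h0
    simpa using h1

theorem good_of {S : Finset ℕ} (hS : ∀ q ∈ S, q.Prime) {A B : ℤ}
    (hirr : Irreducible (Pool.Agent.N783.PF.fF (Pool.Agent.V7H54.A.pol A B)))
    (hsel : ∀ (K : Type) [Field K] [NumberField K] [Algebra ℚ K],
      Pool.Agent.V7H54.U.Ext ℚ S (Pool.Agent.V7H54.A.pol A B) K →
      Pool.Agent.N874.QM.SelM K ((Pool.Agent.N783.PF.fF (Pool.Agent.V7H54.A.pol A B)).map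
        (algebraMap ℚ K))) : GoodOverAll S A B := by
  have hK : ∀ (K : Type) [Field K] [NumberField K], Pool.Agent.V7H54.U.Ext ℚ S
      (Pool.Agent.V7H54.A.pol A B) K → Good K A B := by
    intro K _ _ hE
    obtain ⟨h1, h2, h3, h4⟩ := Pool.Agent.V7H54.A.good_pol hirr hsel K hE
    refine ⟨?_, ?_, h3, h4⟩
    · intro f hf1 hf2 hf3
      exact h1 f hf1 hf2 ⟨hf3.finite, hf3.real⟩
    · intro f hf1 hf2 hf3
      exact h2 f hf1 ⟨hf2.finite, hf2.real⟩ hf3
  exact ⟨Pool.Agent.V7H54.A.disc_pol hirr, hK ℚ (Pool.Agent.V7H54.A.ext_q hS _),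
    fun K _ _ hE => hK K (ext_of hE)⟩

theorem cast_dp (J : Finset ℕ) : ((Pool.Agent.N783.PF.Dp J : ℕ) : ℤ) = ∏ q ∈ J, (q : ℤ) := by
  unfold Pool.Agent.N783.PF.Dp
  push_cast
  rfl

/-- For every integer `a > 0` prime to `6`, not a square, there are a finite set `S` of primes and `c > 0`
such that

* for all large `T` there are at least `c T` integers `t` with `|t| ≤ T` for which for some product `D` of
  different primes in `S` the curve `y² = x³ + D² a x + D³ t` (isomorphic to `D y² = x³ + a x + t`) is minimal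
  and good over `ℚ` and over all `K` in its class;
* for one of these `D` there are for arbitrarily large `T` at least `c T` integers `t` with `|t| ≤ T` such
  that `y² = x³ + D² a x + t` is minimal and good over `ℚ` and over all `K` in its class. -/
theorem result (a : ℕ) (ha : 0 < a) (h6 : Nat.Coprime a 6) (hns : ¬ IsSquare a) :
    ∃ S : Finset ℕ, (∀ q ∈ S, q.Prime ∧ 3 < q ∧ a < q) ∧
    (∃ c : ℝ, 0 < c ∧ ∀ᶠ T : ℝ in atTop, c * T ≤
      ({t : ℤ | |(t : ℝ)| ≤ T ∧ ∃ J ⊆ S, Minimal ((∏ q ∈ J, (q : ℤ)) ^ 2 * a) ((∏ q ∈ J, (q : ℤ)) ^ 3 * t) ∧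
        GoodOverAll S ((∏ q ∈ J, (q : ℤ)) ^ 2 * a) ((∏ q ∈ J, (q : ℤ)) ^ 3 * t)}.ncard : ℝ)) ∧
    ∃ J ⊆ S, ∃ c : ℝ, 0 < c ∧ ∃ᶠ T : ℝ in atTop, c * T ≤
      ({t : ℤ | |(t : ℝ)| ≤ T ∧ Minimal ((∏ q ∈ J, (q : ℤ)) ^ 2 * a) t ∧
        GoodOverAll S ((∏ q ∈ J, (q : ℤ)) ^ 2 * a) t}.ncard : ℝ) := by
  obtain ⟨S, hS, c, hc, T₀, h⟩ := Pool.Agent.V7H54.A.mainA ha h6 hns
  have hfin : ∀ (T : ℝ) (P : ℤ → Prop), {t : ℤ | |(t : ℝ)| ≤ T ∧ P t}.Finite := by
    intro T P
    refine (Set.finite_Icc (-⌈T⌉) ⌈T⌉).subset fun t ht => ?_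
    have h1 := abs_le.1 ht.1
    have h2 := Int.le_ceil T
    constructor
    · have h3 : (-(⌈T⌉ : ℤ) : ℝ) ≤ t := by linarith
      exact_mod_cast h3
    · have h3 : (t : ℝ) ≤ (⌈T⌉ : ℤ) := by linarith
      exact_mod_cast h3
  -- first part
  have h1 : ∀ᶠ T : ℝ in atTop, c / 2 * T ≤
      ({t : ℤ | |(t : ℝ)| ≤ T ∧ ∃ J ⊆ S, Minimal ((∏ q ∈ J, (q : ℤ)) ^ 2 * a) ((∏ q ∈ J, (q : ℤ)) ^ 3 * t) ∧
        GoodOverAll S ((∏ q ∈ J, (q : ℤ)) ^ 2 * a) ((∏ q ∈ J, (q : ℤ)) ^ 3 * t)}.ncard : ℝ) := by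
    filter_upwards [eventually_ge_atTop ((T₀ : ℝ) + 1), eventually_ge_atTop (1 : ℝ)] with T hT hT1
    have hfl : T₀ ≤ ⌊T⌋₊ := by
      rw [Nat.le_floor_iff (by linarith)]
      linarith
    have hlow := h ⌊T⌋₊ hfl
    have h2 : T / 2 ≤ (⌊T⌋₊ : ℝ) := by
      have h3 := Nat.lt_floor_add_one T
      have h4 : (1 : ℝ) ≤ (⌊T⌋₊ : ℝ) := by
        have : 1 ≤ ⌊T⌋₊ := by rw [Nat.one_le_floor_iff]; exact hT1
        exact_mod_cast this
      linarith
    calc c / 2 * T = c * (T / 2) := by ring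
      _ ≤ c * (⌊T⌋₊ : ℝ) := by gcongr
      _ ≤ _ := hlow
      _ ≤ _ := by
        have := Set.ncard_le_ncard (s := {t : ℤ | |t| ≤ ((⌊T⌋₊ : ℕ) : ℤ) ∧ ∃ J ⊆ S,
            Pool.Agent.V7H54.A.Gd a S (Pool.Agent.N783.PF.Dp J) t})
          (t := {t : ℤ | |(t : ℝ)| ≤ T ∧ ∃ J ⊆ S,
            Minimal ((∏ q ∈ J, (q : ℤ)) ^ 2 * a) ((∏ q ∈ J, (q : ℤ)) ^ 3 * t) ∧
            GoodOverAll S ((∏ q ∈ J, (q : ℤ)) ^ 2 * a) ((∏ q ∈ J, (q : ℤ)) ^ 3 * t)})
          (by
            rintro t ⟨ht, J, hJ, hirr, hmin, hsel⟩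
            refine ⟨?_, J, hJ, ?_, ?_⟩
            · have h5 : |(t : ℝ)| ≤ ((⌊T⌋₊ : ℕ) : ℝ) := by exact_mod_cast ht
              exact h5.trans (Nat.floor_le (by linarith))
            · rw [cast_dp] at hmin
              exact fun p hp => Pool.Agent.V7H54.A.min_pol hmin p hp
            · rw [cast_dp] at hirr hsel
              exact good_of (fun q hq => (hS q hq).1) hirr hsel) (hfin _ _)
        exact_mod_cast this
  refine ⟨S, hS, ⟨c / 2, by positivity, h1⟩, ?_⟩
  -- second part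
  by_contra hcon
  push Not at hcon
  obtain ⟨N, hN⟩ : ∃ N : Finset ℕ → ℝ → ℕ, ∀ J T, N J T = {t : ℤ | |(t : ℝ)| ≤ T ∧
      Minimal ((∏ q ∈ J, (q : ℤ)) ^ 2 * a) t ∧
      GoodOverAll S ((∏ q ∈ J, (q : ℤ)) ^ 2 * a) t}.ncard := ⟨_, fun _ _ => rfl⟩
  obtain ⟨D, hD⟩ : ∃ D : Finset ℕ → ℤ, ∀ J, D J = ∏ q ∈ J, (q : ℤ) := ⟨_, fun _ => rfl⟩
  have hD1 : ∀ J ⊆ S, 0 < D J := by
    intro J hJ
    rw [hD]
    exact Finset.prod_pos fun q hq => by exact_mod_cast (hS q (hJ hq)).1.pos
  simp only [← hN] at hcon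
  simp only [← hD] at h1 hcon hN
  obtain ⟨M, hM⟩ : ∃ M : ℝ, M = ∑ J ∈ S.powerset, (D J : ℝ) ^ 3 := ⟨_, rfl⟩
  have hM0 : 0 < M := by
    rw [hM]
    refine Finset.sum_pos (fun J hJ => ?_) ⟨∅, Finset.mem_powerset.2 (Finset.empty_subset _)⟩
    have : (0 : ℝ) < D J := by exact_mod_cast hD1 J (Finset.mem_powerset.1 hJ)
    positivity
  have h2 : ∀ᶠ T : ℝ in atTop, ∀ J ∈ S.powerset,
      (N J ((D J : ℝ) ^ 3 * T) : ℝ) < c / (4 * M) * ((D J : ℝ) ^ 3 * T) := by
    rw [Filter.eventually_all_finset]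
    intro J hJ
    have h3 := hcon J (Finset.mem_powerset.1 hJ) (c / (4 * M)) (by positivity)
    have hDJ : (0 : ℝ) < (D J : ℝ) ^ 3 := by
      have : (0 : ℝ) < D J := by exact_mod_cast hD1 J (Finset.mem_powerset.1 hJ)
      positivity
    exact (tendsto_id.const_mul_atTop hDJ).eventually h3
  obtain ⟨T, hT1, hT2, hT0⟩ := (h1.and (h2.and (eventually_gt_atTop (0 : ℝ)))).exists
  have h4 : {t : ℤ | |(t : ℝ)| ≤ T ∧ ∃ J ⊆ S, Minimal (D J ^ 2 * a) (D J ^ 3 * t) ∧
      GoodOverAll S (D J ^ 2 * a) (D J ^ 3 * t)} ⊆ ⋃ J ∈ S.powerset,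
      {t : ℤ | |(t : ℝ)| ≤ T ∧ Minimal (D J ^ 2 * a) (D J ^ 3 * t) ∧
        GoodOverAll S (D J ^ 2 * a) (D J ^ 3 * t)} := by
    rintro t ⟨ht, J, hJ, h⟩
    rw [Set.mem_iUnion₂]
    exact ⟨J, Finset.mem_powerset.2 hJ, ht, h⟩
  have h5 := Set.ncard_le_ncard h4 (Set.Finite.biUnion (Finset.finite_toSet _) fun J _ => hfin T _)
  have h6 := h5.trans (Finset.set_ncard_biUnion_le _ _)
  have h7 : ∀ J ∈ S.powerset, {t : ℤ | |(t : ℝ)| ≤ T ∧ Minimal (D J ^ 2 * a) (D J ^ 3 * t) ∧
      GoodOverAll S (D J ^ 2 * a) (D J ^ 3 * t)}.ncard ≤ N J ((D J : ℝ) ^ 3 * T) := by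
    intro J hJ
    have hDJ : (0 : ℝ) < (D J : ℝ) := by exact_mod_cast hD1 J (Finset.mem_powerset.1 hJ)
    rw [hN]
    refine Set.ncard_le_ncard_of_injOn (fun t => D J ^ 3 * t) (fun t ht => ⟨?_, ht.2⟩)
      (fun t _ t' _ htt' => ?_) (hfin _ _)
    · push_cast
      rw [abs_mul, abs_of_pos (by positivity)]
      exact mul_le_mul_of_nonneg_left ht.1 (by positivity)
    · have : (D J) ^ 3 ≠ 0 := pow_ne_zero _ (by have := hD1 J (Finset.mem_powerset.1 hJ); omega)
      exact mul_left_cancel₀ this htt'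
  have h8 : (({t : ℤ | |(t : ℝ)| ≤ T ∧ ∃ J ⊆ S, Minimal (D J ^ 2 * a) (D J ^ 3 * t) ∧
      GoodOverAll S (D J ^ 2 * a) (D J ^ 3 * t)}.ncard : ℕ) : ℝ) ≤
      ∑ J ∈ S.powerset, (N J ((D J : ℝ) ^ 3 * T) : ℝ) := by
    have := h6.trans (Finset.sum_le_sum h7)
    exact_mod_cast this
  have h9 : ∑ J ∈ S.powerset, (N J ((D J : ℝ) ^ 3 * T) : ℝ) ≤
      ∑ J ∈ S.powerset, c / (4 * M) * ((D J : ℝ) ^ 3 * T) :=
    Finset.sum_le_sum fun J hJ => (hT2 J hJ).le
  have h10 : ∑ J ∈ S.powerset, c / (4 * M) * ((D J : ℝ) ^ 3 * T) = c / 4 * T := by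
    rw [← Finset.mul_sum, ← Finset.sum_mul, ← hM]
    field_simp
  have h11 : 0 < c * T := mul_pos hc hT0
  linarith

end Pool.Agent.Results.MP_78d38b_nt.OneParameterH54
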