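import Pool.Agent.V7H54.U.FinM

/-!
# The 2-primary part of the Tate-Shafarevich group is trivial over infinitely many Galois 2-extensions of a
# number field at once, for a positive proportion of the elliptic curves

Let `F` be ANY number field. For an elliptic curve `E : y² = x³ + A x + B` over `F` with integral `A`, `B` and
a finite set `S` of prime numbers let `𝓔(E, S)` be the class of ALL finite Galois extensions `K / F` of
2-power degree such that

* `K / F` is unramified at the primes over `2`;
* all primes of `S` split completely in `K`;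
* `x³ + A x + B` is irreducible modulo every prime of `F` that is ramified in `K`.

There is no condition at the infinite places or on the Galois group, and no other condition at the primes of
bad reduction than that they are unramified. The class is closed under composita and contains the Galois
subextensions of its members.

Theorem. For every finite extension `L / F` and every finite set `T` of primes of `F` there are a finite
set `S` of prime numbers which split completely in `L`, prime to `T`, and `c > 0`, such that for all large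
`X` a proportion at least `c` of the minimal pairs `(A, B)` of height at most `X` gives curves `E` such
that `x³ + A x + B` is irreducible modulo all primes in `T` and, for ALL `K` in `𝓔(E, S)`, the 2-Selmer
group of `E` over `K` is trivial, `Ш(E / K)[2^∞] = 0`, and `E(K)` is finite of odd order. If `L / F` is Galois
of 2-power degree and unramified at the primes over `2`, then `L` is such a field `K` for all of the curves.

So the case of one given extension `L / F` (ANY Galois 2-extension unramified over `2`; the Galois group,
the ramification at the odd primes and the behaviour at the real places are arbitrary) is contained, and one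
set of curves of positive density works for all the fields `K` in the class at once. The fields may
be ramified at the primes in `T` and at all other primes modulo which `x³ + A x + B` is irreducible. For
the curves which we construct the class is infinite, with members of unbounded degree (this is not
formalized): by Chebotarev's theorem there are infinitely many principal primes `(δ)` modulo which
`x³ + A x + B` is irreducible, with `δ = 1` modulo `8` and modulo the primes in `S`, and the class
contains all the fields generated by some of the `√δ`.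

In the starting files this was proved for `F = ℚ` (one given field `K`) and for `K = F`.

The method. As in the case `K = F` (project PF, helper783, with many others) the curves `y² = f(x)` are
found among twists of polynomials `f` with good local properties: lattices with a self-adjoint operator
bound the unramified classes, quadratic reciprocity for trace forms and linear algebra over `F_2` find a
twist without classes ramified at auxiliary primes `q`. New here are

* the auxiliary primes `q` split completely in `L`; the bad set of the reduction theory and the linear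
  algebra do not involve `K`; the classes are classes over `F` that satisfy the local conditions over `K`:
  a nonzero 2-Selmer group over `K` has a nonzero class fixed by `Gal(K / F)`, and this comes from a class
  over `F` (a descent for square classes of the cubic algebra, no cohomology is used; files `Desc`, `Sel`);
* the local conditions over `K` imply those over `F`. At the odd primes of `F` ramified in `K` the
  polynomial `f` is irreducible, so there is no class at all; at the other odd primes the
  valuations and the residue classes descend; at the real places a point of a real component descends;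
* at the primes of `F` over `2` the curve has additive reduction of type II and `f` is irreducible: the
  main new part is the descent of the classes of points along an unramified extension `E' / E` of
  complete fields with residue characteristic `2` (files `V3`, `B3`, `C3`, `D3`, `D4`, `E3`, `F3`, `F4`,
  `F5`): every point gives a class `1 + ζ` with an explicit `ζ` of odd valuation `2 n + 1 < 2 e` (or
  `≥ 2 e`), whose leading coefficients are determined by a point over `E` as soon as they are
  in `E`, and levels are raised by multiplication with classes of points over `E`.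

Files `Pool/Agent/V7H54/` (helper54).
-/

set_option autoImplicit false
set_option linter.all false

namespace Pool.Agent.Results.MP_78d38b_nt.SimultaneousTwoExtensionsH54

open Filter NumberField IsDedekindDomain Pool.Agent.TH115.GD
open scoped Classical

section family

variable (F : Type) [Field F] [NumberField F]

/-- The family of elliptic curves `y ^ 2 = x ^ 3 + A x + B` over `F`: pairs of integers `(A, B)`
of `F` with `4 A ^ 3 + 27 B ^ 2 ≠ 0` for which no nonzero prime ideal `𝔭` satisfies both
`𝔭 ^ 4 ∣ A` and `𝔭 ^ 6 ∣ B`. -/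
def Family : Set (𝓞 F × 𝓞 F) :=
  {p | 4 * p.1 ^ 3 + 27 * p.2 ^ 2 ≠ 0 ∧
    ∀ 𝔭 : Ideal (𝓞 F), 𝔭.IsPrime → 𝔭 ≠ ⊥ → ¬ (p.1 ∈ 𝔭 ^ 4 ∧ p.2 ∈ 𝔭 ^ 6)}

variable {F}

/-- The height `max_σ max (4 |σ A|³, 27 |σ B|²)`, over the embeddings `σ : F → ℂ`. -/
noncomputable def height (p : 𝓞 F × 𝓞 F) : ℝ :=
  ⨆ σ : F →+* ℂ, max (4 * ‖σ (p.1 : F)‖ ^ 3) (27 * ‖σ (p.2 : F)‖ ^ 2)

variable (F)

/-- The members of the family of height at most `X`. -/
def UpTo (X : ℝ) : Set (𝓞 F × 𝓞 F) := {p ∈ Family F | height p ≤ X}

/-- The curve `y ^ 2 = x ^ 3 + A x + B` over the extension `K` of `F`. -/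
def curve (K : Type) [Field K] [Algebra F K] (p : 𝓞 F × 𝓞 F) : WeierstrassCurve K :=
  ⟨0, 0, 0, algebraMap F K (p.1 : F), algebraMap F K (p.2 : F)⟩

variable {F}

/-- `x ^ 3 + A x + B` is irreducible modulo the prime ideal `𝔭`. -/
def IrreducibleModulo (𝔭 : Ideal (𝓞 F)) (p : 𝓞 F × 𝓞 F) : Prop :=
  Irreducible ((Polynomial.X ^ 3 + Polynomial.C p.1 * Polynomial.X + Polynomial.C p.2).map
    (Ideal.Quotient.mk 𝔭))

end family

section sha

variable (K : Type) [Field K] [NumberField K] (W : WeierstrassCurve K)

/-- The cocycle `f` of `Gal(Sep K / K)` is a coboundary over the completion of `K` at every maximal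
ideal of the ring of integers and over `ℝ` for every real place (at the complex places there is no
condition). -/
structure Locally (f : (Sep K ≃ₐ[K] Sep K) → Pt W (Sep K)) : Prop where
  finite : ∀ v : HeightOneSpectrum (𝓞 K), LocTriv W (Comp (𝓞 K) K v) (Sep (Comp (𝓞 K) K v)) f
  real : ∀ ρ : K →+* ℝ, letI := ρ.toAlgebra; LocTriv W ℝ (Sep ℝ) f

/-- The 2-Selmer group is zero: every continuous cocycle with values in the points of order two
which is a coboundary over all completions, with values in all points, is the coboundary of a point of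
order two. -/
def SelTwoZero : Prop :=
  ∀ f : (Sep K ≃ₐ[K] Sep K) → Pt W (Sep K), IsCoc W f → (∀ σ, (2 : ℕ) • f σ = 0) →
    Locally K W f → ∃ T : Pt W (Sep K), (2 : ℕ) • T = 0 ∧ ∀ σ, f σ = act W (rs K σ) T - T

/-- The 2-primary part of the Tate-Shafarevich group is zero: every continuous cocycle whose class
is killed by a power of two and which is a coboundary over all completions is a coboundary. -/
def ShaTwoZero : Prop :=
  ∀ f : (Sep K ≃ₐ[K] Sep K) → Pt W (Sep K), IsCoc W f → Locally K W f →
    (∃ (n : ℕ) (Q : Pt W (Sep K)), ∀ σ, 2 ^ n • f σ = act W (rs K σ) Q - Q) →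
    ∃ Q : Pt W (Sep K), ∀ σ, f σ = act W (rs K σ) Q - Q

end sha

/-- Over `K`: trivial 2-Selmer group, trivial 2-primary part of the Tate-Shafarevich group, and a
finite group of points, of odd order. -/
structure Good (F K : Type) [Field F] [NumberField F] [Field K] [NumberField K] [Algebra F K]
    (p : 𝓞 F × 𝓞 F) : Prop where
  sel : SelTwoZero K (curve F K p)
  sha : ShaTwoZero K (curve F K p)
  finite : Finite (Pt (curve F K p) K)
  odd : Odd (Nat.card (Pt (curve F K p) K))

/-- The prime ideal `𝔭` of `F` is ramified in `K`: `𝔭 𝓞 K` is contained in the square of a prime ideal. -/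
def Ramified (F K : Type) [Field F] [NumberField F] [Field K] [NumberField K] [Algebra F K]
    (𝔭 : Ideal (𝓞 F)) : Prop :=
  ∃ 𝔓 : Ideal (𝓞 K), 𝔓.IsPrime ∧ 𝔭.map (algebraMap (𝓞 F) (𝓞 K)) ≤ 𝔓 ^ 2

/-- The prime number `q` splits completely in `K`: the prime ideals of `K` over `q` are unramified over
`q`, with `q` residue classes. -/
def SplitsCompletely (K : Type) [Field K] [NumberField K] (q : ℕ) : Prop :=
  ∀ 𝔓 : Ideal (𝓞 K), 𝔓.IsPrime → (q : 𝓞 K) ∈ 𝔓 →
    (q : 𝓞 K) ∉ 𝔓 ^ 2 ∧ Nat.card (𝓞 K ⧸ 𝔓) = q

/-- The class `𝓔(E, S)`: `K / F` is a Galois extension of 2-power degree, unramified at the primes over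
`2`; all primes `q ∈ S` split completely in `K`; and `x ^ 3 + A x + B` is irreducible modulo all primes of
`F` which are ramified in `K`. -/
structure InClass (F : Type) [Field F] [NumberField F] (S : Finset ℕ) (p : 𝓞 F × 𝓞 F) (K : Type)
    [Field K] [NumberField K] [Algebra F K] : Prop where
  galois : IsGalois F K
  degree : ∃ n : ℕ, Module.finrank F K = 2 ^ n
  two : ∀ 𝔭 : Ideal (𝓞 F), 𝔭.IsPrime → (2 : 𝓞 F) ∈ 𝔭 → ¬ Ramified F K 𝔭
  split : ∀ q ∈ S, SplitsCompletely K q
  irreducible : ∀ 𝔭 : Ideal (𝓞 F), 𝔭.IsPrime → 𝔭 ≠ ⊥ → Ramified F K 𝔭 → IrreducibleModulo 𝔭 p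

theorem crv_iff {F : Type} [Field F] [NumberField F] (X : ℝ) (p : 𝓞 F × 𝓞 F) :
    Pool.Agent.N783.PF.Crv X p ↔ p ∈ UpTo F X := by
  have hb : BddAbove (Set.range fun σ : F →+* ℂ =>
      max (4 * ‖σ (p.1 : F)‖ ^ 3) (27 * ‖σ (p.2 : F)‖ ^ 2)) := Set.Finite.bddAbove (Set.finite_range _)
  constructor
  · rintro ⟨h1, h2, h3⟩
    refine ⟨⟨h1, h2⟩, ciSup_le fun σ => max_le (h3 σ).1 (h3 σ).2⟩
  · rintro ⟨⟨h1, h2⟩, h3⟩
    refine ⟨h1, h2, fun σ => ?_⟩
    have h4 := (le_ciSup hb σ).trans h3
    exact ⟨(le_max_left _ _).trans h4, (le_max_right _ _).trans h4⟩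

/-- For all number fields `F ⊆ L` and every finite set `T` of primes of `F` there are a finite set `S` of
prime numbers which split completely in `L` and are not in the primes in `T`, and `c > 0`, such that for all
large `X` at least `c` times the number of pairs `(A, B)` of the family of height at most `X` give curves
`E` over `F` for which `x ^ 3 + A x + B` is irreducible modulo all primes in `T`, such that for ALL the
extensions `K / F` in the class `𝓔(E, S)` the 2-Selmer group of `E` over `K` is trivial, the 2-primary part
of `Ш(E / K)` is trivial, and `E(K)` is finite of odd order, and such that this also holds for `K = L` if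
`L / F` is Galois of 2-power degree and unramified at the primes over `2`. -/
theorem result (F L : Type) [Field F] [NumberField F] [Field L] [NumberField L] [Algebra F L]
    (T : Finset (HeightOneSpectrum (𝓞 F))) :
    (∀ X : ℝ, (UpTo F X).Finite) ∧
    ∃ S : Finset ℕ, (∀ q ∈ S, q.Prime ∧ SplitsCompletely L q ∧ ∀ v ∈ T, (q : 𝓞 F) ∉ v.asIdeal) ∧
    ∃ c : ℝ, 0 < c ∧ ∀ᶠ X : ℝ in atTop,
      0 < (UpTo F X).ncard ∧
      c * ((UpTo F X).ncard : ℝ) ≤ (({p ∈ UpTo F X |
        (∀ v ∈ T, IrreducibleModulo v.asIdeal p) ∧
        (∀ (K : Type) [Field K] [NumberField K] [Algebra F K], InClass F S p K → Good F K p) ∧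
        (IsGalois F L → (∃ n : ℕ, Module.finrank F L = 2 ^ n) →
          (∀ 𝔭 : Ideal (𝓞 F), 𝔭.IsPrime → (2 : 𝓞 F) ∈ 𝔭 → ¬ Ramified F L 𝔭) →
          Good F L p)}).ncard : ℝ) := by
  have hset : ∀ X : ℝ, UpTo F X = {p : 𝓞 F × 𝓞 F | Pool.Agent.N783.PF.Crv X p} := by
    intro X
    ext p
    exact (crv_iff X p).symm
  obtain ⟨S, hST, c, hc, Y₀, h⟩ := Pool.Agent.V7H54.U.finM F L T
  have hfin : ∀ X : ℝ, (UpTo F X).Finite := fun X => by
    rw [hset]
    exact (h X).1
  refine ⟨hfin, S, fun q hq => ⟨(hST q hq).1, fun 𝔓 h𝔓 hm => ?_, (hST q hq).2.1⟩, c, hc, ?_⟩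
  · have h6 := (hST q hq).2.2 𝔓 h𝔓
    exact ⟨h6.1, h6.2 hm⟩
  filter_upwards [eventually_ge_atTop Y₀] with X hX
  obtain ⟨h1, h3⟩ := (h X).2 hX
  rw [← hset] at h1 h3
  refine ⟨h1, h3.trans ?_⟩
  have h4 : {p : 𝓞 F × 𝓞 F | Pool.Agent.N783.PF.Crv X p ∧ Pool.Agent.V7H54.U.GoodM F L S T p} ⊆
      {p ∈ UpTo F X | (∀ v ∈ T, IrreducibleModulo v.asIdeal p) ∧
        (∀ (K : Type) [Field K] [NumberField K] [Algebra F K], InClass F S p K → Good F K p) ∧
        (IsGalois F L → (∃ n : ℕ, Module.finrank F L = 2 ^ n) →
          (∀ 𝔭 : Ideal (𝓞 F), 𝔭.IsPrime → (2 : 𝓞 F) ∈ 𝔭 → ¬ Ramified F L 𝔭) → Good F L p)} := by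
    rintro p ⟨hp, hT, hL, hK⟩
    have hall : ∀ (K : Type) [Field K] [NumberField K] [Algebra F K], InClass F S p K →
        Good F K p := by
      intro K _ _ _ hE
      have hunr : ∀ w : HeightOneSpectrum (𝓞 F),
          ¬ Pool.Agent.V7H54.Unr F K w → Ramified F K w.asIdeal := by
        intro w hw
        unfold Pool.Agent.V7H54.Unr at hw
        push Not at hw
        obtain ⟨𝔔, h𝔔, hle⟩ := hw
        exact ⟨𝔔, h𝔔, hle⟩
      have hg := hK K ⟨hE.galois, hE.degree, fun w hw => ?_, fun q hq 𝔔 h𝔔 => ?_, fun w hw =>
        hE.irreducible w.asIdeal w.isPrime w.ne_bot (hunr w hw)⟩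
      · refine ⟨?_, ?_, hg.fin, hg.odd⟩
        · intro f hf1 hf2 hf3
          exact hg.sel f hf1 hf2 ⟨hf3.finite, hf3.real⟩
        · intro f hf1 hf2 hf3
          exact hg.sha f hf1 ⟨hf2.finite, hf2.real⟩ hf3
      · by_contra hcon
        exact hE.two w.asIdeal w.isPrime hw (hunr w hcon)
      · refine ⟨fun hm => ?_, fun hm => (hE.split q hq 𝔔 h𝔔 hm).2⟩
        exact (hE.split q hq 𝔔 h𝔔 (Ideal.pow_le_self two_ne_zero hm)).1 hm
    refine ⟨(crv_iff X p).1 hp, hT, hall, fun hgal hdeg htwo => ?_⟩
    refine hall L ⟨hgal, hdeg, htwo, fun q hq 𝔓 h𝔓 hm => ?_, fun 𝔭 h𝔭 hb hr => ?_⟩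
    · have h6 := (hST q hq).2.2 𝔓 h𝔓
      exact ⟨h6.1, h6.2 hm⟩
    · refine hL ⟨𝔭, h𝔭, hb⟩ fun hu => ?_
      obtain ⟨𝔓, h𝔓, hle⟩ := hr
      exact hu 𝔓 h𝔓 hle
  have h5 := Set.ncard_le_ncard h4 ((hfin X).subset fun p hp => hp.1)
  exact_mod_cast h5

end Pool.Agent.Results.MP_78d38b_nt.SimultaneousTwoExtensionsH54
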